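import Pool.Agent.Helper36.XD12

set_option autoImplicit false

/-!
# The heat flow of the Ramanujan Xi function: beyond `exp (C / lam)` all zeros are real and simple

`Xi lam z = ∫ Φ(u) e^(lam u²) e^(i z u) du`, `Φ(u) = e^(6u) Δ(i e^u)`, is the heat flow of the function
`Xi 0 z = Λ(6 + i z)` of the problem.  There is an absolute constant `C` such that for `0 < lam ≤ 1` every
zero `z` of `Xi lam` in the whole plane with `|z| ≥ exp (C / lam)` is real and simple; so `Xi lam` has
only finitely many zeros that are not real or not simple.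

Proof.  Let `g` be the Gaussian density of variance `2 lam`.  Then `Xi lam z = A(6 + iz) + A(6 - iz)`
with `A(s) = ∫_{y > 0} Λ(s + y) g(y) dy`.  Phragmén-Lindelöf, Stirling's formula for `Γ(s + y) / Γ(s)` and
Gaussian integrals give `A(s) = (2π)^(-s) Γ(s) exp(lam log²(s/2π)) (1 + small)` in the half-plane
`re s ≥ 2`, `|s| ≥ exp (C / lam)`: the Gaussian average moves the L-function into its domain of absolute
convergence.  By Cauchy's estimate `re (A'/A) > 0` near the line `re s = 6`, which excludes zeros off the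
line and multiple zeros on it; far from the line `|A(s)| > |A(12 - s)|` is proved directly.
-/

namespace Pool.Agent.Results.MP_cd509c_nt.HeatFlowAlmostAllReal

open MeasureTheory Filter Topology Set

/-- `Δ(i y) = e^(-2πy) ∏_{n ≥ 1} (1 - e^(-2πny))^24`. -/
noncomputable def delta (y : ℝ) : ℝ :=
  Real.exp (-2 * Real.pi * y) * ∏' n : ℕ, (1 - Real.exp (-2 * Real.pi * ((n : ℝ) + 1) * y)) ^ 24

/-- The kernel `Φ(u) = e^(6u) Δ(i e^u)`. -/
noncomputable def Phi (u : ℝ) : ℝ := Real.exp (6 * u) * delta (Real.exp u)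

/-- The heat flow of the Ramanujan Xi function at time `lam`. -/
noncomputable def Xi (lam : ℝ) (z : ℂ) : ℂ :=
  ∫ u : ℝ, ((Phi u * Real.exp (lam * u ^ 2) : ℝ) : ℂ) * Complex.exp (Complex.I * z * u)

lemma Xi_eq (lam : ℝ) : Xi lam = Pool.Agent.Helper36.XD.XiHeat lam := rfl

lemma Xi_ne {lam : ℝ} (hl : 0 < lam) : Xi lam 0 ≠ 0 := by
  have h1 : Xi lam 0 = ((∫ u : ℝ, Phi u * Real.exp (lam * u ^ 2) : ℝ) : ℂ) := by
    unfold Xi
    rw [← integral_complex_ofReal]
    refine integral_congr_ae (ae_of_all _ fun u => ?_)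
    simp
  rw [h1]
  have hdec : Pool.Agent.Helper36.XD.Dec (fun u => ((Phi u * Real.exp (lam * u ^ 2) : ℝ) : ℂ)) := by
    refine Pool.Agent.Helper36.XD.Dec_of_le (lam := lam) fun u => ?_
    have hp : 0 < Phi u := Pool.Agent.Helper36.XD.Phi_pos u
    rw [Complex.norm_real, Real.norm_eq_abs, abs_of_pos (mul_pos hp (Real.exp_pos _))]
    exact le_rfl
  have hcont : Continuous (fun u : ℝ => Phi u * Real.exp (lam * u ^ 2)) := by
    have h2 : Continuous Phi := Pool.Agent.Helper36.XD.Phi_cont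
    exact h2.mul (by fun_prop)
  have hint : Integrable (fun u : ℝ => Phi u * Real.exp (lam * u ^ 2)) := by
    have h3 := (hdec.integrable (Complex.continuous_ofReal.comp hcont).aestronglyMeasurable 0).re
    refine h3.congr (ae_of_all _ fun u => ?_)
    simp only [zero_mul, Complex.exp_zero, mul_one, RCLike.re_to_complex, Function.comp_apply,
      Complex.ofReal_re]
  have hpos : 0 < ∫ u : ℝ, Phi u * Real.exp (lam * u ^ 2) := by
    refine (integral_pos_iff_support_of_nonneg (fun u => ?_) hint).2 ?_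
    · exact (mul_pos (Pool.Agent.Helper36.XD.Phi_pos u) (Real.exp_pos _)).le
    · have : Function.support (fun u : ℝ => Phi u * Real.exp (lam * u ^ 2)) = univ := by
        ext u
        simp only [Function.mem_support, mem_univ, iff_true]
        exact (mul_pos (Pool.Agent.Helper36.XD.Phi_pos u) (Real.exp_pos _)).ne'
      rw [this]
      simp
  exact_mod_cast hpos.ne'

lemma finite_zeros {f : ℂ → ℂ} (hf : Differentiable ℂ f) {z0 : ℂ} (h0 : f z0 ≠ 0) (R : ℝ) :
    ({z : ℂ | f z = 0} ∩ Metric.closedBall 0 R).Finite := by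
  by_contra h
  obtain ⟨x, _, hacc⟩ := Set.Infinite.exists_accPt_of_subset_isCompact h
    (isCompact_closedBall (0 : ℂ) R) inter_subset_right
  rw [accPt_iff_frequently_nhdsNE] at hacc
  have hfr : ∃ᶠ y in 𝓝[≠] x, f y = 0 := hacc.mono fun y hy => hy.1
  have han : AnalyticOnNhd ℂ f univ := fun z _ => hf.analyticAt z
  have h1 := han.eqOn_zero_of_preconnected_of_frequently_eq_zero isPreconnected_univ (mem_univ x) hfr
  exact h0 (h1 (mem_univ z0))

/-- At time `0` the function is the function of the problem.  There is `C` such that for `0 < lam ≤ 1`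
all zeros `z` of `Xi lam` with `|z| ≥ exp (C / lam)` are real and simple; hence all but finitely many
zeros of `Xi lam` are real and simple. -/
theorem result :
    (∀ z : ℂ, Xi 0 z = mellin (fun y : ℝ => ((delta y : ℝ) : ℂ)) (6 + Complex.I * z)) ∧
    (∃ C : ℝ, 0 < C ∧ ∀ lam : ℝ, 0 < lam → lam ≤ 1 → ∀ z : ℂ, Xi lam z = 0 →
      Real.exp (C / lam) ≤ ‖z‖ → z.im = 0 ∧ deriv (Xi lam) z ≠ 0) ∧
    ∀ lam : ℝ, 0 < lam → lam ≤ 1 →
      {z : ℂ | Xi lam z = 0 ∧ ¬ (z.im = 0 ∧ deriv (Xi lam) z ≠ 0)}.Finite := by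
  obtain ⟨C, hC, h⟩ := Pool.Agent.Helper36.XD.real_simple
  refine ⟨Pool.Agent.Helper36.XD.XiHeat_zero, ⟨C, hC, h⟩, fun lam hl hl1 => ?_⟩
  have hd : Differentiable ℂ (Xi lam) := fun z =>
    (Pool.Agent.Helper36.XD.XiHeat_hasDerivAt hl z).differentiableAt
  refine (finite_zeros hd (Xi_ne hl) (Real.exp (C / lam))).subset fun z hz => ⟨hz.1, ?_⟩
  rw [mem_closedBall_zero_iff]
  by_contra hlt
  exact hz.2 (h lam hl hl1 z hz.1 (not_le.1 hlt).le)

end Pool.Agent.Results.MP_cd509c_nt.HeatFlowAlmostAllReal
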