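import Pool.Agent.Helper33.XD.Fin

/-!
# The zeros of the high derivatives of the Ramanujan Xi-function

Let `Λ(s)` be the Mellin transform of `y ↦ Δ(iy)` and `Ξ(z) = Λ(6 + iz)`, the function of the problem. We show that
for `C log x ≤ m ≤ √x` the zeros `z` of the derivative `Ξ^(m)` with `|Re z| = x` are real and simple, prove an
asymptotic formula for `Ξ^(m)(x)`, uniform in `m`, and determine the distances of neighbouring zeros: they are
asymptotically equal to `π / log(x / 2π)`, with an error in `π / distance` which tends to zero.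

Proof (modules `Pool.Agent.Helper33.XD`). By Cauchy's formula `Λ^(m)(s)` is an integral over the circle of radius
`ρ = m / |log(s / 2π)|` about `s`; the functional equation maps the left half of the circle to the right half of the
circle about `12 - s`, so that `(2π ρ^m / m!) Λ^(m)(s) = E(s) + (-1)^m E(12 - s)`. On the right half circle `Λ` is
compared with `(2π)^(-s-w) Γ(s + w)`: where `Re (s + w) ≥ 8` the Dirichlet series is `1 + O(2^(-Re(s + w)))` and the
error is exponentially small in `ρ ≥ C / 2` after integration; the rest of the half circle contributes `x^10 e^(2ρ)`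
(Phragmén-Lindelöf), while the main term is of size `e^m / √m`. Stirling's formula in the form
`Γ(s + w) = Γ(s) s^w (1 + O((|w|² + 1) / Im s))` gives `E(s) = (2π ρ^m / m!) (2π)^(-s) Γ(s) log(s / 2π)^m (1 + η(s))` with
small holomorphic `η`, hence `E'/E (s) = log(s / 2π) + small` by Cauchy's estimate and the digamma asymptotics. So `|E|`
increases from left to right, which gives reality; `2 Re (E'/E) ≠ 0` gives simplicity, and the phase of `E` on the
critical line gives the distances. For `|Im z| ≥ 2` one shows `|E(s)| > |E(12 - s)|` directly.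
-/

set_option autoImplicit false

namespace Pool.Agent.Results.MP_cd509c_nt.HighDerivativeSpacing

open Complex

/-- `Δ(iy) = e^(-2πy) ∏_{n ≥ 1} (1 - e^(-2πny))^24` -/
noncomputable def delta (y : ℝ) : ℝ :=
  Real.exp (-2 * Real.pi * y) * ∏' n : ℕ, (1 - Real.exp (-2 * Real.pi * ((n : ℝ) + 1) * y)) ^ 24

/-- The Ramanujan Xi-function, `Ξ(z) = Λ(6 + iz)` with `Λ` the Mellin transform of `y ↦ Δ(iy)`. -/
noncomputable def Xi (z : ℂ) : ℂ := mellin (fun y : ℝ => ((delta y : ℝ) : ℂ)) (6 + I * z)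

/-- The main term `(2π)^(-6-ix) Γ(6 + ix) log((6 + ix) / 2π)^m`. -/
noncomputable def mainTerm (m : ℕ) (x : ℝ) : ℂ :=
  ((2 * Real.pi : ℝ) : ℂ) ^ (-(6 + x * I)) * Gamma (6 + x * I) *
    (log (6 + x * I) - (Real.log (2 * Real.pi) : ℝ)) ^ m

/-- For every `ε > 0` there is `C` such that for all real `x ≥ C` and all `m` with `C log x ≤ m ≤ √x`: all complex
zeros `z` of `Ξ^(m)` with `|Re z| = x` are real and simple; `Ξ^(m)(x) = 2 Re (i^m M) + O(ε |M|)` with
`M = mainTerm m x`; there is a zero in `[x, x + π / (log(x / 2π) - ε)]`; and if `x` is a zero and `x'` the next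
one, then `|π / (x' - x) - log(x / 2π)| ≤ ε`. -/
theorem result : ∀ ε : ℝ, 0 < ε → ∃ C : ℝ, 1 ≤ C ∧ ∀ (x : ℝ) (m : ℕ), C ≤ x → C * Real.log x ≤ m →
    (m : ℝ) ^ 2 ≤ x →
    (∀ z : ℂ, |z.re| = x → iteratedDeriv m Xi z = 0 → z.im = 0 ∧ iteratedDeriv (m + 1) Xi z ≠ 0) ∧
    ‖iteratedDeriv m Xi x - ((2 * (I ^ m * mainTerm m x).re : ℝ) : ℂ)‖ ≤ ε * ‖mainTerm m x‖ ∧
    (∃ t : ℝ, x ≤ t ∧ t ≤ x + Real.pi / (Real.log (x / (2 * Real.pi)) - ε) ∧ iteratedDeriv m Xi t = 0) ∧
    (iteratedDeriv m Xi x = 0 → ∃ x' : ℝ, x < x' ∧ iteratedDeriv m Xi x' = 0 ∧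
      (∀ t : ℝ, x < t → t < x' → iteratedDeriv m Xi t ≠ 0) ∧
      |Real.pi / (x' - x) - Real.log (x / (2 * Real.pi))| ≤ ε) := by
  intro ε hε
  exact Pool.Agent.Helper33.XD.final hε

end Pool.Agent.Results.MP_cd509c_nt.HighDerivativeSpacing
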