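import Pool.Agent.Helper73.JP.T

/-!
# Jensen polynomials of the Ramanujan Xi-function in a logarithmic range of the shift

Let `Λ(s)` be the completed L-function of the discriminant `Δ`, that is the Mellin transform of
`y ↦ Δ(iy)`, so that `Ξ_Δ(z) = Λ(6 + iz)`, and write `Λ(6 + w) = ∑ γ(n) w^(2n) / n!`. The Jensen polynomial
of degree `d` and shift `n` is `J^{d,n}(X) = ∑_{j ≤ d} binom(d,j) γ(n+j) X^j`.

We show that there is a constant `C` such that all zeros of `J^{d,n}` are real as soon as
`n ≥ C (1 + log (d + 1))`, and that the Riemann hypothesis for `L(s, Δ)` is equivalent to the reality of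
the zeros of the `J^{d,n}` for the remaining pairs `(d, n)`.

Proof (modules `Pool.Agent.Helper73.JP.A` to `T`). Let `F(w²) = Λ(6 + w)`. At heights `n^6 ≤ T ≤ exp(cn)`
the derivative `F^(n)` is computed by Cauchy's formula in the variable `w` on a circle of radius about
`n / log T`, so large that the L-function is close to `1` on the relevant part; the functional equation
splits the integral in two parts of which one dominates off the critical line: there all zeros of `F^(n)`
are real. Small non-real zeros would lead, by Jensen's theorem on the non-real zeros of derivatives, to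
bounded chains of non-real zeros of all the preceding derivatives, which contradicts an estimate of
Gontcharoff. So for large `n` all zeros of `F^(n)` of modulus at most `exp(cn)` are real. The zeros
farther away lie in a parabola, hence in a very thin sector, and a theorem of Laguerre-Pólya-Obreschkoff
type (the operator `D² - 2αD + α² + β²` preserves real-rootedness in degree `d` if
`(d - 1) β² ≤ α²`) gives the claim. The functions `Λ` and the approximation of `F` by the polynomials
`J^{d,0}(z/d)` are treated in the modules `XD` and `S`.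
-/

set_option autoImplicit false

namespace Pool.Agent.Results.MP_cd509c_nt.JensenLogRange

open Complex
open scoped ComplexConjugate

/-- `Δ(iy) = e^(-2πy) ∏_{n ≥ 1} (1 - e^(-2πny))^24` -/
noncomputable def delta (y : ℝ) : ℝ :=
  Real.exp (-2 * Real.pi * y) * ∏' n : ℕ, (1 - Real.exp (-2 * Real.pi * ((n : ℝ) + 1) * y)) ^ 24

/-- The completed L-function `Λ(s) = (2π)^(-s) Γ(s) L(s, Δ)`, as the Mellin transform of `y ↦ Δ(iy)`. -/
noncomputable def completed (s : ℂ) : ℂ := mellin (fun y : ℝ => ((delta y : ℝ) : ℂ)) s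

/-- `γ(n) = n!/(2n)! · (d/dw)^(2n) Λ(6 + w)` at `w = 0` (real part, the number is real) -/
noncomputable def gam (n : ℕ) : ℝ :=
  (n.factorial : ℝ) / ((2 * n).factorial : ℝ) * (iteratedDeriv (2 * n) (fun w : ℂ => completed (6 + w)) 0).re

/-- the Jensen polynomial `J^{d,n}(z) = ∑_{j ≤ d} binom(d,j) γ(n+j) z^j` -/
noncomputable def jensen (d n : ℕ) (z : ℂ) : ℂ :=
  ∑ j ∈ Finset.range (d + 1), (d.choose j : ℂ) * (gam (n + j) : ℂ) * z ^ j

lemma completed_eq (w : ℂ) : completed (6 + w) = H73.JP.GD w := by
  unfold completed H73.JP.GD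
  rw [← H73.XD.mellin_eq_LT]
  rfl

lemma gam_eq (n : ℕ) : gam n = H73.JP.gam H73.JP.GD n := by
  unfold gam H73.JP.gam
  have e : (fun w : ℂ => completed (6 + w)) = H73.JP.GD := funext completed_eq
  rw [e]

lemma jensen_eq (d n : ℕ) (z : ℂ) :
    jensen d n z = Polynomial.aeval z (H73.JP.JQ d (iteratedDeriv n (H73.JP.FF H73.JP.GD))) := by
  rw [H73.JP.JQ_eval H73.JP.GD_diff H73.JP.GD_even]
  unfold jensen
  simp only [gam_eq]

lemma poly_ne (d n : ℕ) : H73.JP.JQ d (iteratedDeriv n (H73.JP.FF H73.JP.GD)) ≠ 0 := by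
  intro h
  have h1 := jensen_eq d n 0
  rw [h, map_zero] at h1
  unfold jensen at h1
  rw [Finset.sum_eq_single 0 (fun j _ hj => by rw [zero_pow hj, mul_zero]) (by simp)] at h1
  simp only [Nat.choose_zero_right, Nat.cast_one, one_mul, add_zero, pow_zero, mul_one] at h1
  have h2 := H73.JP.gam_pos n
  rw [← gam_eq] at h2
  exact h2.ne' (by exact_mod_cast h1)

lemma real_iff (d n : ℕ) : (∀ z : ℂ, jensen d n z = 0 → z.im = 0) ↔
    (H73.JP.JQ d (iteratedDeriv n (H73.JP.FF H73.JP.GD))).Splits := by
  constructor
  · intro h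
    refine H73.JP.splits_of_im fun z hz => h z ?_
    rw [jensen_eq]
    exact hz
  · intro h z hz
    rw [jensen_eq] at hz
    exact H73.JP.im_of_splits h (poly_ne d n) hz

theorem result :
    -- the normalisation
    ((∀ w : ℂ, HasSum (fun n : ℕ => (gam n : ℂ) * w ^ (2 * n) / (n.factorial : ℂ)) (completed (6 + w))) ∧
      ∀ n : ℕ, 0 < gam n) ∧
    ∃ C : ℝ, 0 < C ∧
      -- all zeros are real for large shifts
      (∀ d n : ℕ, C * (1 + Real.log ((d : ℝ) + 1)) ≤ n → ∀ z : ℂ, jensen d n z = 0 → z.im = 0) ∧
      -- the remaining pairs are equivalent to the Riemann hypothesis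
      ((∀ z : ℂ, completed (6 + I * z) = 0 → z.im = 0) ↔
        ∀ d n : ℕ, (n : ℝ) < C * (1 + Real.log ((d : ℝ) + 1)) → ∀ z : ℂ, jensen d n z = 0 → z.im = 0) := by
  obtain ⟨b, k, C1, γ, D, hJD⟩ := H73.JP.GD_jd
  have hd := H73.JP.GD_diff
  have he := H73.JP.GD_even
  have hF := H73.JP.FF_diff hd he
  have hFG := H73.JP.FF_sq hd he
  obtain ⟨hne, -⟩ := H73.JP.zeros_high hJD hF hFG
  have hec := hJD.ec hF hFG
  refine ⟨⟨fun w => ?_, fun n => by rw [gam_eq]; exact H73.JP.gam_pos n⟩, ?_⟩
  · have h1 := H73.JP.ev_hasSum hd he w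
    rw [completed_eq]
    have e : (fun n : ℕ => (gam n : ℂ) * w ^ (2 * n) / (n.factorial : ℂ)) =
        fun n : ℕ => H73.JP.ev H73.JP.GD n * (w ^ 2) ^ n := by
      funext n
      have h2 := hec.coef_real hne n
      rw [H73.JP.gam_eq hd he, H73.JP.FF_iter hd he, ← gam_eq] at h2
      have hf : (n.factorial : ℂ) ≠ 0 := by exact_mod_cast n.factorial_ne_zero
      rw [h2, pow_mul]
      field_simp
    rw [e]
    exact h1
  obtain ⟨C, hC, H⟩ := H73.JP.jensen_log hJD hF hFG
  refine ⟨C, hC, fun d n hn => (real_iff d n).mpr (H d n hn), ?_, ?_⟩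
  · intro hRH d n _
    refine (real_iff d n).mpr (H73.JP.jensen_of_real hec hne (fun x hx => ?_) d n)
    obtain ⟨w, hw, -⟩ := H73.JP.exists_sqrt x
    rw [← hw, hFG, ← completed_eq] at hx
    have h1 := hRH (-I * w) (by
      have e : I * (-I * w) = w := by
        rw [← mul_assoc, mul_neg, I_mul_I, neg_neg, one_mul]
      rw [e]
      exact hx)
    have h2 : w.re = 0 := by simpa using h1
    rw [← hw, pow_two, mul_im, h2]
    ring
  · intro h z hz
    have h0 := H73.JP.real_of_jensen hec hne (fun d => by
      have := (real_iff d 0).mp (h d 0 (by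
        have h1 : 0 ≤ Real.log ((d : ℝ) + 1) := Real.log_nonneg (by
          have : (0:ℝ) ≤ d := Nat.cast_nonneg d
          linarith)
        rw [Nat.cast_zero]
        positivity))
      rwa [iteratedDeriv_zero] at this) ((I * z) ^ 2) (by rw [hFG, ← completed_eq]; exact hz)
    have e : ((I * z) ^ 2).im = -(2 * z.re * z.im) := by
      have : (I * z) ^ 2 = -(z ^ 2) := by
        rw [mul_pow, I_sq]
        ring
      rw [this, neg_im, pow_two, mul_im]
      ring
    rw [e] at h0
    by_contra him
    have hre : z.re = 0 := by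
      have h1 : z.re * z.im = 0 := by linarith
      rcases mul_eq_zero.mp h1 with h2 | h2
      · exact h2
      · exact absurd h2 him
    have hz2 : I * z = ((-z.im : ℝ) : ℂ) := by
      apply Complex.ext
      · simp
      · simp [hre]
    rw [completed_eq, hz2] at hz
    exact H73.JP.GD_real_pos _ hz

end Pool.Agent.Results.MP_cd509c_nt.JensenLogRange
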