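import Pool.Agent.Helper27.DN.Zero
import Pool.Agent.Helper27.DN.Open
import Pool.Agent.Helper36.YD7

set_option autoImplicit false

/-!
# The de Bruijn-Newman constant of the Ramanujan Xi function is smaller than `1/8`

`Xi t z = ∫ Φ(u) e^(t u²) e^(i z u) du`, `Φ(u) = e^(6u) Δ(i e^u)`, is the heat flow of the function
`Xi 0 z = Λ(6 + i z)` of the problem.  De Bruijn's theorem gives real zeros for `t ≥ 1/8`.  We show that
there is a number `Λ` with `0 ≤ Λ < 1/8` such that for `t ≥ 0` all zeros of `Xi t` are real exactly for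
`t ≥ Λ`, that for `t > Λ` the zeros are also simple, and that, if `Λ > 0`, the function `Xi Λ` has a
multiple real zero.  So the question (is `Λ = 0`?) is equivalent to: no `Xi t`, `0 < t < 1/8`, has a
multiple real zero.

Ingredients: absolute convergence of `L(s, Δ)` for `re s > 13/2` (Parseval on horocycles) and the Euler
product put the zeros of `Xi 0` in `|im z| ≤ 1/2`; de Bruijn's shrinking of the strip, with strict
inequality since `Xi t` has infinitely many real zeros; for `t > 0` all zeros with `|z| ≥ exp (C / t)`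
are real and simple; compactness and Hurwitz' theorem.
-/

namespace Pool.Agent.Results.MP_cd509c_nt.NewmanConstantBelowEighth

open MeasureTheory Filter Topology Set

/-- `Δ(i y) = e^(-2πy) ∏_{n ≥ 1} (1 - e^(-2πny))^24`. -/
noncomputable def delta (y : ℝ) : ℝ :=
  Real.exp (-2 * Real.pi * y) * ∏' n : ℕ, (1 - Real.exp (-2 * Real.pi * ((n : ℝ) + 1) * y)) ^ 24

/-- The kernel `Φ(u) = e^(6u) Δ(i e^u)`. -/
noncomputable def Phi (u : ℝ) : ℝ := Real.exp (6 * u) * delta (Real.exp u)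

/-- The heat flow of the Ramanujan Xi function at time `t`. -/
noncomputable def Xi (t : ℝ) (z : ℂ) : ℂ :=
  ∫ u : ℝ, ((Phi u * Real.exp (t * u ^ 2) : ℝ) : ℂ) * Complex.exp (Complex.I * z * u)

/-- All complex zeros of `Xi t` are real. -/
def AllReal (t : ℝ) : Prop := ∀ z : ℂ, Xi t z = 0 → z.im = 0

/-- `Xi t` has a multiple real zero. -/
def HasMultipleRealZero (t : ℝ) : Prop := ∃ x : ℝ, Xi t x = 0 ∧ deriv (Xi t) x = 0

lemma Xi_eq (t : ℝ) : Xi t = Pool.Agent.Helper36.XD.XiHeat t := rfl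

lemma strip {t : ℝ} (ht : 0 < t) (ht1 : t < 1 / 8) {z : ℂ} (hz : Xi t z = 0) :
    z.im ^ 2 < 1 / 4 - 2 * t := by
  have hstrip : ∀ z, Pool.Agent.Helper36.XD.XiHeat 0 z = 0 → |z.im| ≤ 1 / 2 :=
    Pool.Agent.Helper27.DN.zeros_strip
  have h0 : 0 < t / 2 := by positivity
  set D : ℝ := √(1 / 4 - t) with hD
  have hD2 : D ^ 2 = 1 / 4 - t := Real.sq_sqrt (by linarith)
  have h1 : ∀ z, Pool.Agent.Helper36.XD.XiHeat (t / 2) z = 0 → |z.im| ≤ D := by
    intro z hz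
    have h2 := Pool.Agent.Helper36.YD.Xi_heat (lam := 0) h0 hstrip (z := z) (by rwa [zero_add])
    refine h2.trans (le_of_eq ?_)
    rw [hD]
    congr 1
    rw [max_eq_left (by nlinarith)]
    ring
  have h2 := Pool.Agent.Helper36.YD.Xi_strict (lam := t / 2) (D := D) (τ := t / 2) h0 h1
    (fun R => Pool.Agent.Helper36.YD.Xi_real_zeros h0 (by linarith) R) (by rw [hD2]; linarith)
    (z := z) (by rwa [add_halves])
  rw [hD2] at h2
  have h3 : |z.im| ^ 2 < √(1 / 4 - t - 2 * (t / 2)) ^ 2 := pow_lt_pow_left₀ h2 (abs_nonneg _) two_ne_zero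
  rw [sq_abs, Real.sq_sqrt (by linarith)] at h3
  linarith

lemma strip_uniform {t : ℝ} (ht : 0 < t) (ht1 : t < 1 / 8) :
    ∃ δ : ℝ, 0 < δ ∧ ∀ z : ℂ, Xi t z = 0 → z.im ^ 2 ≤ 1 / 4 - 2 * t - δ := by
  obtain ⟨C, hC, hR⟩ := Pool.Agent.Helper36.XD.real_simple
  set S : Set ℂ := {z : ℂ | Xi t z = 0} ∩ Metric.closedBall 0 (Real.exp (C / t)) with hS
  have hcont : Continuous (Xi t) := (Pool.Agent.Helper27.DN.XiHeat_diff t).continuous
  have hcomp : IsCompact S := by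
    refine (isCompact_closedBall (0 : ℂ) (Real.exp (C / t))).inter_left ?_
    exact isClosed_eq hcont continuous_const
  by_cases hne : S.Nonempty
  · obtain ⟨w, hw, hmax⟩ := hcomp.exists_isMaxOn hne
      (f := fun z : ℂ => z.im ^ 2) (by fun_prop)
    have h1 := strip ht ht1 hw.1
    refine ⟨(1 / 4 - 2 * t) - w.im ^ 2, by linarith, fun z hz => ?_⟩
    rcases le_or_gt (Real.exp (C / t)) ‖z‖ with h2 | h2
    · have h3 := (hR t ht (by linarith) z hz h2).1
      rw [h3]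
      nlinarith [sq_nonneg w.im]
    · have h3 : z ∈ S := ⟨hz, by rw [mem_closedBall_zero_iff]; exact h2.le⟩
      have h4 : z.im ^ 2 ≤ w.im ^ 2 := hmax h3
      linarith
  · refine ⟨1 / 4 - 2 * t, by linarith, fun z hz => ?_⟩
    rcases le_or_gt (Real.exp (C / t)) ‖z‖ with h2 | h2
    · have h3 := (hR t ht (by linarith) z hz h2).1
      rw [h3]
      norm_num
    · exact absurd ⟨z, hz, by rw [mem_closedBall_zero_iff]; exact h2.le⟩ hne

lemma simple_after {s t : ℝ} (hs : AllReal s) (hst : s < t) {z : ℂ} (hz : Xi t z = 0) :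
    z.im = 0 ∧ deriv (Xi t) z ≠ 0 := by
  have h := Pool.Agent.Helper36.YD.Xi_simple (lam := s) (τ := t - s) (by linarith) hs (z := z)
    (by rw [add_sub_cancel]; exact hz)
  rw [add_sub_cancel] at h
  exact h

lemma exists_before : ∃ t : ℝ, 0 ≤ t ∧ t < 1 / 8 ∧ AllReal t := by
  obtain ⟨δ, hδ, h⟩ := strip_uniform (t := 1 / 16) (by norm_num) (by norm_num)
  by_cases h8 : δ < 1 / 8
  · refine ⟨1 / 8 - δ / 2, by linarith, by linarith, fun z hz => ?_⟩
    set D : ℝ := √(1 / 8 - δ) with hD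
    have hD2 : D ^ 2 = 1 / 8 - δ := Real.sq_sqrt (by linarith)
    have h1 : ∀ z, Pool.Agent.Helper36.XD.XiHeat (1 / 16) z = 0 → |z.im| ≤ D := fun z hz =>
      Real.abs_le_sqrt ((h z hz).trans (by linarith))
    have h2 := Pool.Agent.Helper36.YD.Xi_heat (lam := 1 / 16) (D := D) (τ := 1 / 16 - δ / 2)
      (by linarith) h1 (z := z) (by
        rw [show (1 : ℝ) / 16 + (1 / 16 - δ / 2) = 1 / 8 - δ / 2 by ring]
        exact hz)
    rw [hD2, max_eq_right (by linarith), Real.sqrt_zero] at h2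
    exact abs_eq_zero.1 (le_antisymm h2 (abs_nonneg _))
  · refine ⟨1 / 16, by norm_num, by norm_num, fun z hz => ?_⟩
    have h1 := h z hz
    have h2 : z.im ^ 2 ≤ 0 := by linarith
    exact pow_eq_zero_iff two_ne_zero |>.1 (le_antisymm h2 (sq_nonneg _))

/-- Main result. -/
theorem result :
    (∀ z : ℂ, Xi 0 z = mellin (fun y : ℝ => ((delta y : ℝ) : ℂ)) (6 + Complex.I * z)) ∧
    (∃ Λ : ℝ, 0 ≤ Λ ∧ Λ < 1 / 8 ∧
      (∀ t : ℝ, 0 ≤ t → (AllReal t ↔ Λ ≤ t)) ∧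
      (∀ t : ℝ, Λ < t → ∀ z : ℂ, Xi t z = 0 → z.im = 0 ∧ deriv (Xi t) z ≠ 0) ∧
      (0 < Λ → HasMultipleRealZero Λ) ∧
      (∃ C : ℝ, 0 < C ∧ ∀ t : ℝ, 0 < t →
        (Λ ≤ t ↔ ∀ z : ℂ, ‖z‖ < Real.exp (C / t) → Xi t z = 0 → z.im = 0))) ∧
    (AllReal 0 ↔ ∀ t : ℝ, 0 < t → t < 1 / 8 → ¬ HasMultipleRealZero t) ∧
    (∀ t : ℝ, 0 < t → t < 1 / 8 → ∃ δ : ℝ, 0 < δ ∧
      ∀ z : ℂ, Xi t z = 0 → z.im ^ 2 ≤ 1 / 4 - 2 * t - δ) := by
  set A : Set ℝ := {t : ℝ | 0 ≤ t ∧ AllReal t} with hA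
  obtain ⟨t₀, ht0, ht8, hreal⟩ := exists_before
  have hne : A.Nonempty := ⟨t₀, ht0, hreal⟩
  have hbdd : BddBelow A := ⟨0, fun t ht => ht.1⟩
  set Λ : ℝ := sInf A with hΛ
  have hΛ0 : 0 ≤ Λ := le_csInf hne fun t ht => ht.1
  have hΛ8 : Λ < 1 / 8 := lt_of_le_of_lt (csInf_le hbdd ⟨ht0, hreal⟩) ht8
  have hsimple : ∀ t : ℝ, Λ < t → ∀ z : ℂ, Xi t z = 0 → z.im = 0 ∧ deriv (Xi t) z ≠ 0 := by
    intro t ht z hz
    obtain ⟨s, hs, hst⟩ := exists_lt_of_csInf_lt hne ht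
    exact simple_after hs.2 hst hz
  have hΛreal : AllReal Λ :=
    Pool.Agent.Helper27.DN.closed_real fun t ht z hz => (hsimple t ht z hz).1
  have hiff : ∀ t : ℝ, 0 ≤ t → (AllReal t ↔ Λ ≤ t) := by
    intro t ht
    refine ⟨fun h => csInf_le hbdd ⟨ht, h⟩, fun h => ?_⟩
    rcases h.eq_or_lt with h1 | h1
    · rw [← h1]; exact hΛreal
    · exact fun z hz => (hsimple t h1 z hz).1
  have hmult : 0 < Λ → HasMultipleRealZero Λ := by
    intro hpos
    by_contra hno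
    have h1 : ∀ z : ℂ, Pool.Agent.Helper36.XD.XiHeat Λ z = 0 →
        z.im = 0 ∧ deriv (Pool.Agent.Helper36.XD.XiHeat Λ) z ≠ 0 := by
      intro z hz
      have h2 := hΛreal z hz
      refine ⟨h2, fun h3 => hno ⟨z.re, ?_⟩⟩
      have h4 : ((z.re : ℝ) : ℂ) = z := by
        apply Complex.ext
        · simp
        · simp [h2]
      rw [h4]
      exact ⟨hz, h3⟩
    obtain ⟨t₁, g1, g2, g3⟩ := Pool.Agent.Helper27.DN.open_down hpos (by linarith) h1
    have h5 := (hiff t₁ g1.le).1 (g3 t₁ le_rfl g2.le)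
    linarith
  refine ⟨Pool.Agent.Helper36.XD.XiHeat_zero, ⟨Λ, hΛ0, hΛ8, hiff, hsimple, hmult, ?_⟩, ?_,
    fun t h1 h2 => strip_uniform h1 h2⟩
  · obtain ⟨C, hC, hR⟩ := Pool.Agent.Helper36.XD.real_simple
    refine ⟨C, hC, fun t ht => ⟨fun h z _ hz => (hiff t ht.le).2 h z hz, fun h => ?_⟩⟩
    rcases le_or_gt t 1 with h1 | h1
    · refine (hiff t ht.le).1 fun z hz => ?_
      rcases le_or_gt (Real.exp (C / t)) ‖z‖ with h2 | h2
      · exact (hR t ht h1 z hz h2).1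
      · exact h z h2 hz
    · linarith
  · constructor
    · intro h t h1 _ hx
      obtain ⟨x, hx0, hx1⟩ := hx
      have h2 := (hiff 0 le_rfl).1 h
      exact (hsimple t (by linarith) x hx0).2 hx1
    · intro h
      refine (hiff 0 le_rfl).2 ?_
      by_contra hlt
      push Not at hlt
      exact h Λ hlt hΛ8 (hmult hlt)

end Pool.Agent.Results.MP_cd509c_nt.NewmanConstantBelowEighth
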